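import Pool.Agent.Helper90.Spin.Final

set_option autoImplicit false
open Matrix
open scoped ComplexOrder

/-!
# The spin alignment conjecture for at most three letters, for sparse set systems, and for
separable or sparsely entangled tuples

Setting of the problem (as in the frozen statement), all `d`, `n`, all states `Q`, all weights `μ`.
For every set `I` we fix a core `C I ⊆ I` and assume that `ρ_I` is `C I`-separable, that is, a sum
of operators `ξ ⊗ ⨂_{i ∈ I \ C I} σ_i` with `ξ ≥ 0` on `C I`. For `C I = I` this is no restriction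
(take one summand), for `C I = ∅` it means that `ρ_I` is fully separable. Special cases:

* `C I = I`: the conjecture holds for ALL state tuples if `n ≤ 3`, and for every `n` if each site
  lies in at most three sets `I` with `μ_I ≠ 0` and `2 ≤ |I| < n`;
* `C I = ∅`: for every `n` and every `μ` the aligned tuple is optimal among fully separable tuples;
* for every `n` and every `μ` the conjecture holds for tuples with at most three entangled members.

The conclusion is `det (t + A₀) ≤ det (t + A)` for all `t > 0`, together with the entropy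
inequality `S(A₀) ≤ S(A)`.
-/

namespace Pool.Agent.Results.MP_5b61e7_mp.AlignedOptimal

open Pool.Agent.Helper90.Spin

theorem result :
    ∀ (d n : ℕ) (Q : Matrix (Fin d) (Fin d) ℂ), Q.PosSemidef → Q.trace = 1 →
    ∀ (q : Fin d → ℂ) (c : ℝ), star q ⬝ᵥ q = 1 → Q *ᵥ q = (c : ℂ) • q →
    (∀ v : Fin d → ℂ, (star v ⬝ᵥ (Q *ᵥ v)).re ≤ c * (star v ⬝ᵥ v).re) →
    ∀ (μ : Finset (Fin n) → ℝ), (∀ I, 0 ≤ μ I) → ∑ I, μ I = 1 →
    ∀ (ρ : (I : Finset (Fin n)) →
        Matrix ({j // j ∈ I} → Fin d) ({j // j ∈ I} → Fin d) ℂ),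
    (∀ I, (ρ I).PosSemidef ∧ (ρ I).trace = 1) →
    ∀ C : Finset (Fin n) → Finset (Fin n), (∀ I, C I ⊆ I) →
    (∀ I, μ I ≠ 0 → SepOff I (C I) (ρ I)) →
    (n ≤ 3 ∨
      (∀ p : Fin n, (Finset.univ.filter (fun I : Finset (Fin n) =>
        μ I ≠ 0 ∧ p ∈ C I ∧ 2 ≤ (C I).card ∧ I ≠ Finset.univ)).card ≤ 3) ∨
      Eliminable n ((Finset.univ.filter (fun I : Finset (Fin n) => μ I ≠ 0)).image
        (fun I => (I, C I)))) →
    AlignedWins Q q μ ρ :=
  main_result

end Pool.Agent.Results.MP_5b61e7_mp.AlignedOptimal
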